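import Pool.Agent.N683.H2.Par2
import Pool.Agent.N19.BR.ParSel

/-!
# The `p`-parity conjecture for semistable elliptic curves: reduction to curves of large rank

`K` is a number field, `E` a semistable elliptic curve over `K` with `j(E) ≠ 0, 1728`, `L` a finite Galois
extension of `K`, for example `L = K(E[N])`, `S` a finite set of primes of `K` and `R` a natural number.
Let `p` be a prime number, and let `W_p(E)` be the `ℚ_p`-vector space
`lim Hom(ℚ_p / ℤ_p, Sel_{p^∞}(E / F)) ⊗ ℚ`, the limit over the finite extensions `F` of `K` in the algebraic
closure.  It is a representation of `G_K`, and its subspace fixed by `G_F` has the dimension `rk_p(E / F)`.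
The theorem is about all representations of `G_K` over fields of characteristic zero.

The proof.  Let `U` be a group of automorphisms of the algebraic closure over `K` such that all finite
images of `U` are `2`-hyperelementary.  Then `E` has infinite rank over the fixed field of `U`
(`Pool.Agent.N683.H2`: one of two explicit families of lines contains points of the fixed field, since
the field of the square root of the discriminant of three conjugate points on a line is unique; the
points are chosen `𝔭`-adically).  By compactness the rank is at least `R` over the fixed fields of all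
`2`-hyperelementary subgroups of the Galois group of a suitable finite extension, and Brauer induction
with denominators prime to `2` gives a relation with an odd coefficient between the permutation
characters of such fields; it is combined with the relations of `Pool.Agent.N19.BR` for local degrees, fixed
spaces, archimedean places and split multiplicative primes.
-/

set_option autoImplicit false

namespace Pool.Agent.Results.MP_ddf76b_nt.LargeRankSelmerParity

open NumberField IsDedekindDomain
open Pool.Agent.R433.MD (Ext)
open Pool.Agent.N19.BR.FDef
open scoped Classical

/-- **Parity of Selmer ranks and elliptic curves of large rank.**  Let `E` be a semistable elliptic curve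
over a number field `K` with `j(E) ≠ 0, 1728`, `L/K` a finite Galois extension, `S` a finite set of primes
of `K`, `n` an odd positive integer and `R` a natural number.  There are finitely many number fields `F_j`
between `K` and its algebraic closure such that
* `E(F_j)` has rank at least `R`;
* the Galois groups of `L F_j / F_j` are `2`-hyperelementary, and `n` divides the local degrees of all
  `F_j / K` at the primes above `S`;
and a set `J` of indices, such that for all fields `k` of characteristic zero and all `k`-linear
representations `W` of `G_K` with finite-dimensional fixed spaces `W^{G_{F_j}}`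

`(-1)^{dim W^{G_K}} w(E / K) = ∏_{j ∈ J} (-1)^{dim W^{G_{F_j}}} w(E / F_j)`;

in particular (`k = ℚ_p`, `W = W_p(E)`), if the `p`-parity conjecture holds for `E` over all `F_j`, then it
holds for `E` over `K`. -/
theorem result (K : Type) [Field K] [NumberField K] (E : WeierstrassCurve K) [E.IsElliptic]
    (hs : Semistable E) (h0 : E.j ≠ 0) (h1728 : E.j ≠ 1728) (L : Type) [Field L] [NumberField L]
    [Algebra K L] [IsGalois K L] (S : Set (HeightOneSpectrum (𝓞 K))) (hS : S.Finite) (n : ℕ)
    (hn : Odd n) (R : ℕ) :
    ∃ (N : ℕ) (F : Fin N → IntermediateField K (AlgebraicClosure K)) (_ : ∀ j, NumberField (F j))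
      (J : Finset (Fin N)),
      (∀ j, (R : Cardinal) ≤ Module.rank ℤ (E.map (algebraMap K (F j))).toAffine.Point ∧
        TwoClass L S n (⟨F j⟩ : Ext K)) ∧
        ∀ (k W : Type) [Field k] [CharZero k] [AddCommGroup W] [Module k W]
          (ρ : Representation k Gal(AlgebraicClosure K/K) W), FixedParityFormula ρ E F J ∧
            ((∀ j, FixedParity ρ E (F j)) → InvariantParity ρ E) := by
  have hE : E.IsElliptic := inferInstance
  obtain ⟨N, Z, e, m, hm, hrel, hZ⟩ := Pool.Agent.N683.H2.list_two2 E hE h0 h1728 L hS hn R
  refine ⟨N, fun j => Pool.Agent.N19.BR.img (Z j), fun j => Pool.Agent.N19.BR.img_nf (Z j),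
    Finset.univ.filter fun i => Odd (e i),
    fun j => ⟨(hZ j).2.trans ?_, Pool.Agent.N19.BR.img_two (Z j) (hZ j).1⟩,
    fun k W _ _ _ _ ρ => ?_⟩
  · let f : (Z j).F →ₐ[K] Pool.Agent.N19.BR.img (Z j) :=
      ((Pool.Agent.N19.BR.imgEquiv (Z j) : (Z j).F ≃ₐ[K] _) : (Z j).F →ₐ[K] _)
    let g := (WeierstrassCurve.Affine.Point.map (W' := E) f).toIntLinearMap
    exact LinearMap.rank_le_of_injective g (WeierstrassCurve.Affine.Point.map_injective f)
  · have h := Pool.Agent.N19.BR.parity_fixed ρ (fun j => Pool.Agent.N19.BR.img (Z j)) hm
      (Pool.Agent.N19.BR.isRel_img' hrel) hE hs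
    exact ⟨h, Pool.Agent.N19.BR.invariant_parity ρ h hE⟩

end Pool.Agent.Results.MP_ddf76b_nt.LargeRankSelmerParity
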