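import Pool.Agent.N19.BR.ParSel

/-!
# The `p`-parity conjecture for semistable elliptic curves over number fields: a product formula over
fields with `2`-hyperelementary Galois action and large odd local degrees

`K` is a number field, `L` a finite Galois extension of `K` and `S` a finite set of primes of `K`.

For an elliptic curve `E` over `K` and a prime number `p` let `W_p(E)` be the direct limit of the spaces
`Hom(ℚ_p/ℤ_p, Sel_{p^∞}(E/F)) ⊗ ℚ` over all finite extensions `F` of `K` in the algebraic closure: a
representation of the absolute Galois group `G_K` over `k = ℚ_p`.  By Galois descent for Selmer groups the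
space of the elements of `W_p(E)` fixed by `G_F` has dimension `rk_p E/F`.  The theorem below is for
arbitrary representations.

The proof.  There is a relation `∑ e_j [F_j] = m [K]` between the permutation characters of finite
extensions `F_j` of `K` with the properties below, with an odd integer `m` (`Pool.Agent.N19.BR`).  It gives
the relation `∑ e_j dim W^{G_{F_j}} = m dim W^{G_K}`, and the same relation for the numbers of archimedean
places and, ramified primes included, for the numbers of the primes of split multiplicative reduction.

The definitions are in `Pool.Agent.N19.BR.PDefs`, `FDefs`, `BBDefs` and `Defs`.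
-/

set_option autoImplicit false

namespace Pool.Agent.Results.MP_ddf76b_nt.SelmerParityFormula

open NumberField IsDedekindDomain
open Pool.Agent.R433.MD (Ext)
open Pool.Agent.N19.BR.FDef

/-- **Parity of Selmer ranks of semistable elliptic curves.**  Let `L/K` be a finite Galois extension of
number fields, `S` a finite set of primes of `K` and `n` an odd positive integer.  There are finitely many
number fields `F_j` between `K` and its algebraic closure such that the Galois groups of `L F_j / F_j` are
`2`-hyperelementary and `n` divides the local degrees of all `F_j / K` at the primes above `S`, and a set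
`J` of indices, such that for ALL semistable elliptic curves `E` over `K`, all fields `k` of characteristic
zero and all `k`-linear representations `W` of `G_K` with finite-dimensional fixed spaces `W^{G_{F_j}}`

`(-1)^{dim W^{G_K}} w(E / K) = ∏_{j ∈ J} (-1)^{dim W^{G_{F_j}}} w(E / F_j)`;

in particular (`k = ℚ_p`, `W = W_p(E)`), if the `p`-parity conjecture holds for `E` over all `F_j`, then it
holds for `E` over `K`. -/
theorem result (K : Type) [Field K] [NumberField K] (L : Type) [Field L] [NumberField L]
    [Algebra K L] [IsGalois K L] (S : Set (HeightOneSpectrum (𝓞 K))) (hS : S.Finite) (n : ℕ)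
    (hn : Odd n) :
    ∃ (N : ℕ) (F : Fin N → IntermediateField K (AlgebraicClosure K)) (_ : ∀ j, NumberField (F j))
      (J : Finset (Fin N)), (∀ j, TwoClass L S n (⟨F j⟩ : Ext K)) ∧
      ∀ E : WeierstrassCurve K, E.IsElliptic → Semistable E →
        ∀ (k W : Type) [Field k] [CharZero k] [AddCommGroup W] [Module k W]
          (ρ : Representation k Gal(AlgebraicClosure K/K) W), FixedParityFormula ρ E F J ∧
            ((∀ j, FixedParity ρ E (F j)) → InvariantParity ρ E) := by
  classical
  obtain ⟨N, Z, e, m, hm, hrel, hZ⟩ := Pool.Agent.N19.BR.list_two K L hS hn
  refine ⟨N, fun j => Pool.Agent.N19.BR.img (Z j), fun j => Pool.Agent.N19.BR.img_nf (Z j),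
    Finset.univ.filter fun i => Odd (e i), fun j => Pool.Agent.N19.BR.img_two (Z j) (hZ j),
    fun E hE hs k W _ _ _ _ ρ => ?_⟩
  have h := Pool.Agent.N19.BR.parity_fixed ρ (fun j => Pool.Agent.N19.BR.img (Z j)) hm
    (Pool.Agent.N19.BR.isRel_img' hrel) hE hs
  have h' : FixedParityFormula ρ E (fun j => Pool.Agent.N19.BR.img (Z j))
      (Finset.univ.filter fun i => Odd (e i)) := by
    convert h
  exact ⟨h', Pool.Agent.N19.BR.invariant_parity ρ h' hE⟩

end Pool.Agent.Results.MP_ddf76b_nt.SelmerParityFormula
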